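import Mathlib

namespace Pool.Agent.H.MP_bbd370_an
open Filter Topology Set Real intervalIntegral
open MeasureTheory hiding integral_const_mul integral_const integral_add integral_sub

noncomputable def I (c : ℝ) (a : ℝ → ℝ) (t : ℝ) : ℝ := ∫ s in (0 : ℝ)..t, exp (c * (t - s)) * a s

variable {a b : ℝ → ℝ} {c t : ℝ}

lemma I_alt (c : ℝ) (a : ℝ → ℝ) (t : ℝ) :
    I c a t = exp (c * t) * ∫ s in (0 : ℝ)..t, exp (-(c * s)) * a s := by
  rw [I, ← integral_const_mul]; congr 1; funext s
  rw [← mul_assoc, ← exp_add]; ring_nf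

lemma de (c t : ℝ) : HasDerivAt (fun t => exp (c * t)) (exp (c * t) * c) t := by
  simpa using ((hasDerivAt_id t).const_mul c).exp

lemma I_deriv (ha : Continuous a) (c t : ℝ) : HasDerivAt (I c a) (c * I c a t + a t) t := by
  have h := (de c t).mul ((show Continuous fun s => exp (-(c * s)) * a s by
    fun_prop).integral_hasStrictDerivAt 0 t).hasDerivAt
  rw [show I c a = _ from funext (I_alt c a)]
  refine h.congr_deriv ?_
  rw [← mul_assoc (exp _) (exp _), ← exp_add]; simp; ring

lemma I_cont (ha : Continuous a) (c : ℝ) : Continuous (I c a) :=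
  continuous_iff_continuousAt.2 fun t => (I_deriv ha c t).continuousAt

lemma I_eq (hb : Continuous b) (ht : 0 ≤ t) (h : ∀ s, 0 ≤ s → a s = b s) {P : ℝ → ℝ}
    (hP : ∀ x, HasDerivAt P (c * P x + b x) x) (h0 : P 0 = 0) : I c a t = P t := by
  rw [I_alt, integral_congr (g := fun s => exp (-(c * s)) * b s) (fun s hs => by
    rw [uIcc_of_le ht] at hs; simp only [h s hs.1]),
    integral_eq_sub_of_hasDerivAt (f := fun s => exp (-c * s) * P s) (fun x _ => by
      refine ((de (-c) x).mul (hP x)).congr_deriv ?_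
      simp only [neg_mul]; ring) (Continuous.intervalIntegrable (by fun_prop) _ _),
    h0, mul_zero, sub_zero, ← mul_assoc, ← exp_add]
  simp

noncomputable def mm (a : ℝ → ℝ) (t : ℝ) : ℝ := a t + 2 / 3 * (I 1 a t - I (-2) a t)

lemma mm_cont (ha : Continuous a) : Continuous (mm a) := by
  have := I_cont ha 1
  have := I_cont ha (-2)
  unfold mm; fun_prop

lemma mm_lin (ha : Continuous a) (hb : Continuous b) (c t : ℝ) :
    mm (fun s => c * a s + b s) t = c * mm a t + mm b t := by
  have : ∀ k, I k (fun s => c * a s + b s) t = c * I k a t + I k b t := fun k => by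
    simp only [I, mul_add, mul_left_comm _ c]
    rw [integral_add (Continuous.intervalIntegrable (by fun_prop) _ _)
      (Continuous.intervalIntegrable (by fun_prop) _ _), integral_const_mul]
  simp only [mm, this]; ring

lemma mm_nonneg (ha : Continuous a) (h : ∀ s, 0 ≤ a s) (ht : 0 ≤ t) : 0 ≤ mm a t := by
  have : I (-2) a t ≤ I 1 a t := integral_mono_on ht
    (Continuous.intervalIntegrable (by fun_prop) _ _)
    (Continuous.intervalIntegrable (by fun_prop) _ _) fun s hs => by
      gcongr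
      · exact h s
      · linarith [hs.2]
      · norm_num
  unfold mm; linarith [h t]

lemma mm_le {M T : ℝ} (h : ∀ s, |a s| ≤ M) (ht : |t| ≤ T) :
    |mm a t| ≤ (1 + 2 * (exp (4 * T) * T)) * M := by
  have M0 : 0 ≤ M := (abs_nonneg _).trans (h 0)
  have T0 : 0 ≤ T := (abs_nonneg _).trans ht
  have : ∀ k : ℝ, |k| ≤ 2 → |I k a t| ≤ exp (4 * T) * T * M := fun k hk => by
    have := norm_integral_le_of_norm_le_const (a := 0) (b := t) (C := exp (4 * T) * M)
      (f := fun s => exp (k * (t - s)) * a s) fun s hs => by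
        rw [norm_mul, Real.norm_of_nonneg (exp_pos _).le]
        gcongr exp ?_ * ?_
        · have h1 : |t - s| ≤ 2 * T := by
            have := abs_sub_left_of_mem_uIcc (uIoc_subset_uIcc hs)
            simp only [sub_zero] at this
            linarith [abs_sub t s]
          refine (le_abs_self _).trans ?_
          rw [abs_mul]; nlinarith [abs_nonneg k, abs_nonneg (t - s)]
        · exact h s
    rw [sub_zero] at this
    exact this.trans (by nlinarith [mul_nonneg (exp_pos (4 * T)).le M0])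
  have h1 := abs_le.1 (this 1 (by simp))
  have h2 := abs_le.1 (this (-2) (by simp))
  have h3 := abs_le.1 (h t)
  have : 0 ≤ exp (4 * T) * T * M := by positivity
  rw [abs_le, mm]; constructor <;> nlinarith

lemma mm_I0 (ha : Continuous a) (ht : 0 ≤ t) : I 0 (mm a) t = (2 * I 1 a t + I (-2) a t) / 3 :=
  I_eq (P := fun t => (2 * I 1 a t + I (-2) a t) / 3) (mm_cont ha) ht (fun _ _ => rfl) (fun x => by
    refine ((((I_deriv ha 1 x).const_mul 2).add (I_deriv ha (-2) x)).div_const 3).congr_deriv ?_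
    simp only [mm]; ring) (by simp [I])

lemma mm_I1 (ha : Continuous a) (ht : 0 ≤ t) :
    I (-1) (mm a) t = (I 1 a t + 2 * I (-2) a t) / 3 :=
  I_eq (P := fun t => (I 1 a t + 2 * I (-2) a t) / 3) (mm_cont ha) ht (fun _ _ => rfl) (fun x => by
    refine (((I_deriv ha 1 x).add ((I_deriv ha (-2) x).const_mul 2)).div_const 3).congr_deriv ?_
    simp only [mm]; ring) (by simp [I])

lemma mm_shift (ha : Continuous a) {s : ℝ} (hs : 0 ≤ s) (ht : 0 ≤ t)
    (h : ∀ r, 0 ≤ r → b r = a (r + s) + 2 * I 0 (mm a) s - 2 * I (-1) (mm a) s * exp (-1 * r)) :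
    mm b t = mm a (t + s) := by
  rw [mm_I0 ha hs, mm_I1 ha hs] at h
  set p := I 1 a s
  set q := I (-2) a s
  have e1 := I_eq (c := 1) (by fun_prop) ht h (P := fun r => I 1 a (r + s) - 2 * ((2 * p + q) / 3)
    + (p + 2 * q) / 3 * exp (-1 * r)) (fun x => by
      refine ((((I_deriv ha 1 (x + s)).comp_add_const x s).sub_const _).add
        ((de (-1) x).const_mul ((p + 2 * q) / 3))).congr_deriv ?_
      ring) (by simp [p]; ring)
  have e2 := I_eq (c := -2) (by fun_prop) ht h (P := fun r => I (-2) a (r + s) + (2 * p + q) / 3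
    - 2 * ((p + 2 * q) / 3) * exp (-1 * r)) (fun x => by
      refine ((((I_deriv ha (-2) (x + s)).comp_add_const x s).add_const _).sub
        ((de (-1) x).const_mul (2 * ((p + 2 * q) / 3)))).congr_deriv ?_
      ring) (by simp [q]; ring)
  rw [mm, mm, e1, e2, h t ht]; ring

lemma mm_k (ht : 0 ≤ t) (h : ∀ r, 0 ≤ r → a r = 2 - 2 * exp (-1 * r)) :
    mm a t = 2 / 3 * (exp (1 * t) - exp (-2 * t)) := by
  have e1 := I_eq (c := 1) (by fun_prop) ht h (P := fun r => exp (1 * r) - 2 + exp (-1 * r))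
    (fun x => (((de 1 x).sub_const 2).add (de (-1) x)).congr_deriv (by ring)) (by simp; ring)
  have e2 := I_eq (c := -2) (by fun_prop) ht h
    (P := fun r => 1 - 2 * exp (-1 * r) + exp (-2 * r)) (fun x =>
      ((((de (-1) x).const_mul 2).const_sub 1).add (de (-2) x)).congr_deriv (by ring))
      (by simp; ring)
  rw [mm, e1, e2, h t ht]; ring

variable {X : Type} [NormedAddCommGroup X] [NormedSpace ℝ X] [CompleteSpace X]

lemma avg {S : Set X} (h1 : Convex ℝ S) (h2 : IsClosed S) {F : ℝ → X} (hF : Continuous F)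
    (ht : 0 < t) (h : ∀ s ∈ Icc 0 t, F s ∈ S) : ∃ y ∈ S, ∫ s in (0 : ℝ)..t, F s = t • y := by
  refine ⟨_, h1.set_average_mem h2 (μ := volume) (t := Ioc 0 t) (by simpa) (by simp)
    ((ae_restrict_mem measurableSet_Ioc).mono fun s hs => h s (Ioc_subset_Icc_self hs))
    (hF.integrableOn_Icc.mono_set Ioc_subset_Icc_self), ?_⟩
  rw [integral_of_le ht.le, setAverage_eq, smul_smul]
  simp [ht.le, ht.ne']

theorem pert {τ : ℝ → X →L[ℝ] X} (h0 : ∀ f, τ 0 f = f) (h1 : ∀ s t f, τ (s + t) f = τ s (τ t f))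
    (h2 : ∀ f, Continuous fun t => τ t f) (h3 : ∀ t, ‖τ t‖ ≤ 1) (φ : X →L[ℝ] ℝ) (g : X)
    (hk : ∀ r, 0 ≤ r → φ (τ r g) = 2 - 2 * exp (-1 * r)) {C : Set X} (c1 : IsClosed C)
    (c2 : ∀ x ∈ C, ∀ y ∈ C, x + y ∈ C) (c3 : ∀ c : ℝ, 0 ≤ c → ∀ x ∈ C, c • x ∈ C)
    (c4 : ∀ t, ∀ x ∈ C, τ t x ∈ C) (c5 : ∀ x ∈ C, 0 ≤ φ x) (c6 : g ∈ C) :
    ∃ W : ℝ → X →L[ℝ] X, (∀ f, W 0 f = f) ∧
      (∀ s t, 0 ≤ s → 0 ≤ t → ∀ f, W (t + s) f = W t (W s f)) ∧ (∀ f, Continuous fun t => W t f) ∧
      (∀ t, 0 ≤ t → ∀ f ∈ C, W t f ∈ C) ∧ (∀ t, 0 ≤ t → IsCompactOperator (W t - τ t)) ∧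
      (∀ f, Tendsto (fun t => t⁻¹ • (W t f - τ t f)) (𝓝[>] 0) (𝓝 (φ f • g))) ∧
      ∀ t, 0 ≤ t → φ (W t g) = 2 / 3 * (exp (1 * t) - exp (-2 * t)) := by
  have jc : Continuous fun p : ℝ × X => τ p.1 p.2 :=
    continuous_prod_of_continuous_lipschitzWith' _ 1 (fun t => (τ t).lipschitz.weaken (h3 t)) h2
  have n1 : ∀ t f, ‖τ t f‖ ≤ ‖f‖ := fun t f => by simpa using (τ t).le_of_opNorm_le (h3 t) f
  set m : X → ℝ → ℝ := fun f => mm fun s => φ (τ s f)
  have ca : ∀ f, Continuous fun s => φ (τ s f) := fun f => φ.continuous.comp (h2 f)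
  have cm : ∀ f, Continuous (m f) := fun f => mm_cont (ca f)
  have cg : Continuous fun s => τ (-s) g := (h2 g).comp continuous_neg
  have cF : ∀ f, Continuous fun s => m f s • τ (-s) g := fun f => (cm f).smul cg
  have bm : ∀ f T t, |t| ≤ T → |m f t| ≤ (1 + 2 * (exp (4 * T) * T)) * (‖φ‖ * ‖f‖) :=
    fun f T t => mm_le fun s => φ.le_of_opNorm_le_of_le le_rfl (n1 s f)
  have ml : ∀ (c : ℝ) f f' s, m (c • f + f') s = c * m f s + m f' s := fun c f f' s => by
    simp only [m, map_add, map_smul, smul_eq_mul, mm_lin (ca f) (ca f')]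
  have m0 : ∀ s, m 0 s = 0 := fun s => by simpa using ml (-1) 0 0 s
  let K : ℝ → X →L[ℝ] X := fun t => LinearMap.mkContinuous
    { toFun := fun f => ∫ s in (0 : ℝ)..t, m f s • τ (-s) g
      map_add' := fun f f' => by
        rw [← integral_add ((cF f).intervalIntegrable _ _) ((cF f').intervalIntegrable _ _)]
        congr 1; funext s
        rw [← add_smul, ← one_mul (m f s), ← ml, one_smul]
      map_smul' := fun c f => by
        simp only [← intervalIntegral.integral_smul, smul_smul, RingHom.id_apply]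
        congr 1; funext s
        rw [← add_zero (c * _), ← m0 s, ← ml, add_zero] }
    ((1 + 2 * (exp (4 * |t|) * |t|)) * ‖φ‖ * ‖g‖ * |t|) fun f => by
      have := norm_integral_le_of_norm_le_const (a := 0) (b := t)
        (C := (1 + 2 * (exp (4 * |t|) * |t|)) * (‖φ‖ * ‖f‖) * ‖g‖)
        (f := fun s => m f s • τ (-s) g) fun s hs => by
          rw [norm_smul]
          gcongr
          · exact bm f _ s (by simpa using abs_sub_left_of_mem_uIcc (uIoc_subset_uIcc hs))
          · exact n1 _ _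
      rw [sub_zero] at this
      exact this.trans_eq (by ring)
  have hK : ∀ t f, K t f = ∫ s in (0 : ℝ)..t, m f s • τ (-s) g := fun _ _ => rfl
  have dK : ∀ f t, HasDerivAt (fun t => K t f) (m f t • τ (-t) g) t := fun f t =>
    ((cF f).integral_hasStrictDerivAt 0 t).hasDerivAt
  have cK : ∀ f, Continuous fun t => K t f := fun f =>
    continuous_iff_continuousAt.2 fun t => (dK f t).continuousAt
  have key : ∀ s r, 0 ≤ s → 0 ≤ r → ∀ f, φ (τ r (τ s (f + K s f))) = φ (τ (r + s) f) +
      2 * I 0 (m f) s - 2 * I (-1) (m f) s * exp (-1 * r) := fun s r hs hr f => by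
    rw [← h1, map_add, map_add, hK, ← (τ (r + s)).intervalIntegral_comp_comm
      ((cF f).intervalIntegrable _ _), ← φ.intervalIntegral_comp_comm
      (((τ (r + s)).continuous.comp' (cF f)).intervalIntegrable _ _), add_sub_assoc, I, I,
      ← integral_const_mul, ← integral_const_mul, ← intervalIntegral.integral_mul_const,
      ← integral_sub (Continuous.intervalIntegrable (by have := cm f; fun_prop) _ _)
        (Continuous.intervalIntegrable (by have := cm f; fun_prop) _ _)]
    congr 1
    refine integral_congr fun u hu => ?_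
    rw [uIcc_of_le hs] at hu
    simp only [map_smul, ← h1, smul_eq_mul]
    rw [hk _ (by linarith [hu.2]), show -1 * (r + s + -u) = -1 * (s - u) + -1 * r by ring, exp_add]
    simp; ring
  refine ⟨fun t => (τ t).comp (1 + K t), fun f => by simp [hK, h0], fun s t hs ht f => ?_,
    fun f => (jc.comp (f := fun t => (t, f + K t f)) (continuous_id.prodMk
      (continuous_const.add (cK f)))).congr fun t => by simp, fun t ht f hf => ?_,
    fun t ht => ?_, fun f => ?_, fun t ht => ?_⟩
  · simp only [ContinuousLinearMap.comp_apply, _root_.add_apply, one_apply_eq_self]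
    rw [h1, hK t, integral_congr (g := fun r => τ s (m f (r + s) • τ (-(r + s)) g)) fun r hr => by
      rw [uIcc_of_le ht] at hr
      simp only [map_smul, ← h1]
      rw [show s + -(r + s) = -r by ring]
      exact congrArg (· • _) (mm_shift (ca f) hs hr.1 fun r hr => key s r hs hr f),
      (τ s).intervalIntegral_comp_comm (((cF f).comp' (continuous_add_const s)).intervalIntegrable _ _),
      ← map_add, integral_comp_add_right (fun r => m f r • τ (-r) g), zero_add, add_assoc, hK, hK,
      integral_add_adjacent_intervals ((cF f).intervalIntegrable _ _) ((cF f).intervalIntegrable _ _)]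
  · refine c4 _ _ (c2 _ hf _ ?_)
    rcases ht.eq_or_lt with rfl | ht
    · simpa [hK] using c3 0 le_rfl f hf
    obtain ⟨y, hy, e⟩ := avg (fun x hx y hy a b ha hb _ => c2 _ (c3 a ha x hx) _ (c3 b hb y hy)) c1
      (cF f) ht fun s hs => c3 _ (mm_nonneg (ca f) (fun s => c5 _ (c4 s f hf)) hs.1) _ (c4 _ _ c6)
    show K t f ∈ C
    rw [hK, e]; exact c3 t ht.le y hy
  · rw [show (τ t).comp (1 + K t) - τ t = (τ t).comp (K t) by ext; simp]
    refine IsCompactOperator.clm_comp (f := K t) ?_ (τ t)
    rcases ht.eq_or_lt with rfl | ht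
    · rw [show K 0 = 0 by ext; simp [hK]]; exact isCompactOperator_zero
    set M := (1 + 2 * (exp (4 * t) * t)) * (‖φ‖ * 1)
    have hS := (((isCompact_Icc (a := -M) (b := M)).prod (isCompact_Icc (a := 0) (b := t))).image
      (f := fun p : ℝ × ℝ => p.1 • τ (-p.2) g)
      (continuous_fst.smul (cg.comp continuous_snd))).totallyBounded.convexHull.closure
    refine ⟨_, (hS.isCompact_of_isClosed isClosed_closure).image (continuous_const_smul t),
      mem_of_superset (Metric.closedBall_mem_nhds 0 one_pos) fun f hf => ?_⟩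
    obtain ⟨y, hy, e⟩ := avg (convex_convexHull ℝ _).closure isClosed_closure (cF f) ht
      fun s hs => subset_closure (subset_convexHull ℝ _ (mem_image_of_mem
        (fun p : ℝ × ℝ => p.1 • τ (-p.2) g) (x := (m f s, s)) (mk_mem_prod
        (show m f s ∈ Icc (-M) M from abs_le.1 ((bm f t s (by
          rw [abs_of_nonneg hs.1]; exact hs.2)).trans (by
            have := ht.le
            simp only [M]
            gcongr; simpa using hf))) hs)))
    exact ⟨y, hy, e.symm⟩
  · have d := (hasDerivAt_iff_tendsto_slope_zero.1 (dK f 0)).mono_left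
      (nhdsWithin_mono (t := {0}ᶜ) (s := Ioi 0) _ fun x (hx : 0 < x) => hx.ne')
    have := (jc.tendsto (0, _)).comp ((tendsto_nhdsWithin_of_tendsto_nhds tendsto_id).prodMk_nhds d)
    have e1 : m f 0 = φ f := by simp [m, mm, I, h0]
    have e2 : K 0 f = 0 := by simp [hK]
    simpa [Function.comp_def, h0, e1, e2] using this
  · have := key t 0 ht le_rfl g
    simp only [h0, zero_add, m, mm_I0 (ca g) ht, mm_I1 (ca g) ht, mul_zero, exp_zero] at this
    rw [← mm_k ht hk, mm]
    exact this.trans (by ring)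

end Pool.Agent.H.MP_bbd370_an
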