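import Pool.Agent.H.MP_bbd370_an.A

namespace Pool.Agent.H.MP_bbd370_an
open Filter Topology Set Real MeasureTheory

noncomputable abbrev mu : Measure ℝ :=
  (volume.restrict (Ioi 0)).withDensity fun x => ENNReal.ofReal x

noncomputable abbrev X1 : Type := Lp ℝ 1 mu

def IsData (r a : ℝ → ℝ) (b : ℝ → ℝ → ℝ) : Prop :=
  (∀ x > 0, 0 < r x) ∧ LocallyIntegrableOn (fun x => 1 / r x) (Ioi 0) ∧
    ∫⁻ x in Ioo 0 1, ENNReal.ofReal (1 / r x) = ⊤ ∧ ∫⁻ x in Ioi 1, ENNReal.ofReal (1 / r x) = ⊤ ∧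
    Measurable a ∧ (∀ x > 0, 0 ≤ a x) ∧ Measurable (Function.uncurry b) ∧
    (∀ x y, 0 < x → x < y → 0 ≤ b x y) ∧
    ∀ y > 0, ∫⁻ x in Ioo 0 y, ENNReal.ofReal (x * b x y) ≤ ENNReal.ofReal y

def IsFlow (r : ℝ → ℝ) (Φ : ℝ → ℝ → ℝ) : Prop :=
  ∀ y > 0, ∀ t ≥ 0, Φ y t ∈ Ioc 0 y ∧ ∫ τ in Φ y t..y, 1 / r τ = t

def Transport (r a : ℝ → ℝ) (Φ : ℝ → ℝ → ℝ) (t : ℝ) (f h : ℝ → ℝ) : Prop :=
  ∀ᵐ y ∂mu, h y = exp (-∫ p in Φ y t..y, a p / r p) * f (Φ y t) * deriv (fun y => Φ y t) y

def Frag (a : ℝ → ℝ) (b : ℝ → ℝ → ℝ) (f h : ℝ → ℝ) : Prop :=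
  ∀ᵐ x ∂mu, IntegrableOn (fun y => a y * b x y * f y) (Ioi x) ∧
    h x = ∫ y in Ioi x, a y * b x y * f y

section
variable {E : Type} [NormedAddCommGroup E] [NormedSpace ℝ E]

def C0 (V : ℝ → E →L[ℝ] E) : Prop :=
  (∀ f, V 0 f = f) ∧ (∀ s ≥ 0, ∀ t ≥ 0, ∀ f, V (s + t) f = V s (V t f)) ∧
    ∀ f, ContinuousOn (fun t => V t f) (Ici 0)

def Gen (V : ℝ → E →L[ℝ] E) (f g : E) : Prop :=
  Tendsto (fun t : ℝ => t⁻¹ • (V t f - f)) (𝓝[>] 0) (𝓝 g)

def Perturb (U V : ℝ → E →L[ℝ] E) (B : E →L[ℝ] E) : Prop :=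
  ∀ f g, Gen V f g ↔ ∃ h, Gen U f h ∧ g = h + B f

noncomputable def growth (V : ℝ → E →L[ℝ] E) : EReal :=
  sInf ((↑) '' {w : ℝ | ∃ M, ∀ t ≥ 0, ‖V t‖ ≤ M * exp (w * t)})

noncomputable def essGrowth (V : ℝ → E →L[ℝ] E) : EReal :=
  sInf ((↑) '' {w : ℝ | ∃ M, ∀ t ≥ 0, ∃ K : E →L[ℝ] E, IsCompactOperator K ∧
    ‖V t - K‖ ≤ M * exp (w * t)})

theorem pert2 [CompleteSpace E] {τ : ℝ → E →L[ℝ] E} (h0 : ∀ f, τ 0 f = f)
    (h1 : ∀ s t f, τ (s + t) f = τ s (τ t f))
    (h2 : ∀ f, Continuous fun t => τ t f) (h3 : ∀ t, ‖τ t‖ ≤ 1) (φ : E →L[ℝ] ℝ) (g : E)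
    (hk : ∀ r, 0 ≤ r → φ (τ r g) = 2 - 2 * exp (-1 * r)) {C : Set E} (c1 : IsClosed C)
    (c2 : ∀ x ∈ C, ∀ y ∈ C, x + y ∈ C) (c3 : ∀ c : ℝ, 0 ≤ c → ∀ x ∈ C, c • x ∈ C)
    (c4 : ∀ t, ∀ x ∈ C, τ t x ∈ C) (c5 : ∀ x ∈ C, 0 ≤ φ x) (c6 : g ∈ C) :
    C0 (fun t => exp (-t) • τ t) ∧ ∃ V : ℝ → E →L[ℝ] E, C0 V ∧ (∀ t ≥ 0, ∀ f ∈ C, V t f ∈ C) ∧
      Perturb (fun t => exp (-t) • τ t) V (φ.smulRight g) ∧ essGrowth V < growth V := by
  obtain ⟨W, w0, w1, w2, w3, w4, w5, w6⟩ := pert h0 h1 h2 h3 φ g hk c1 c2 c3 c4 c5 c6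
  refine ⟨⟨fun f => by simp [h0], fun s _ t _ f => by simp [h1, smul_smul, ← exp_add, add_comm],
    fun f => ((continuous_exp.comp continuous_neg).smul (h2 f)).continuousOn⟩,
    fun t => exp (-t) • W t, ⟨fun f => by simp [w0],
    fun s hs t ht f => by simp [w1 t s ht hs, smul_smul, ← exp_add, add_comm],
    fun f => ((continuous_exp.comp continuous_neg).smul (w2 f)).continuousOn⟩,
    fun t ht f hf => c3 _ (exp_pos _).le _ (w3 t ht f hf), fun f y => ?_, ?_⟩
  · have e : Tendsto (fun t : ℝ => exp (-t)) (𝓝[>] 0) (𝓝 1) :=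
      tendsto_nhdsWithin_of_tendsto_nhds (by
        simpa using (continuous_exp.comp' continuous_neg).tendsto 0)
    have h := e.smul (w5 f)
    rw [one_smul] at h
    constructor
    · refine fun hy => ⟨y - φ f • g, (hy.sub h).congr fun t => ?_, by simp⟩
      simp only [_root_.smul_apply]; module
    · rintro ⟨z, hz, rfl⟩
      refine (hz.add h).congr fun t => ?_
      simp only [_root_.smul_apply]; module
  · refine lt_of_le_of_lt (sInf_le ⟨-1, ⟨1, fun t ht => ⟨exp (-t) • (W t - τ t),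
      (w4 t ht).smul _, ?_⟩⟩, rfl⟩) (lt_of_lt_of_le (b := ((0 : ℝ) : EReal))
        (by exact_mod_cast neg_one_lt_zero) (le_sInf ?_))
    · rw [← smul_sub, sub_sub_cancel, norm_smul, norm_of_nonneg (exp_pos _).le, one_mul, neg_one_mul]
      exact mul_le_of_le_one_right (exp_pos _).le (h3 t)
    · rintro _ ⟨w, ⟨M, hM⟩, rfl⟩
      refine EReal.coe_le_coe_iff.2 (le_of_not_gt fun hw => ?_)
      have t1 : Tendsto (fun t => ‖φ‖ * (M * exp (w * t) * ‖g‖)) atTop (𝓝 0) := by
        simpa using (((tendsto_exp_atBot.comp (tendsto_id.const_mul_atTop_of_neg hw)).const_mul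
          M).mul_const ‖g‖).const_mul ‖φ‖
      have t2 : Tendsto (fun t => 2 / 3 * (1 - exp (-3 * t))) atTop (𝓝 (2 / 3 * (1 - 0))) :=
        ((tendsto_exp_atBot.comp (tendsto_id.const_mul_atTop_of_neg (by norm_num))).const_sub
          1).const_mul _
      have := le_of_tendsto_of_tendsto t2 t1 (by
        filter_upwards [eventually_ge_atTop 0] with t ht
        have := φ.le_of_opNorm_le_of_le le_rfl ((exp (-t) • W t).le_of_opNorm_le (hM t ht) g)
        refine le_trans (le_of_eq ?_) ((le_abs_self _).trans this)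
        rw [_root_.smul_apply, map_smul, w6 t ht, smul_eq_mul, mul_left_comm, mul_sub (exp (-t)),
          ← exp_add, ← exp_add]
        simp; ring)
      norm_num at this
end

noncomputable abbrev nu : Measure ℝ := volume.withDensity fun s => (exp (2 * s)).toNNReal

lemma emb : MeasurableEmbedding exp := isOpenEmbedding_exp.measurableEmbedding

lemma mp : MeasurePreserving exp nu mu := by
  refine ⟨measurable_exp, Measure.ext fun A hA => ?_⟩
  have hA' := measurable_exp hA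
  rw [Measure.map_apply measurable_exp hA, nu, withDensity_apply _ hA', withDensity_apply _ hA,
    Measure.restrict_restrict hA, ← range_exp, ← image_preimage_eq_inter_range,
    lintegral_image_eq_lintegral_abs_deriv_mul hA' (fun x _ => (hasDerivAt_exp x).hasDerivWithinAt)
      exp_injective.injOn]
  congr 1; funext s
  rw [abs_of_pos (exp_pos s), ← ENNReal.ofReal_mul (exp_pos s).le, ← exp_add, two_mul]; rfl

lemma ae_mu {P : ℝ → Prop} : (∀ᵐ y ∂mu, P y) ↔ ∀ᵐ s, P (exp s) := by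
  rw [← mp.map_eq, emb.ae_map_iff]
  exact ⟨fun h => withDensity_absolutelyContinuous' (by fun_prop)
    (Eventually.of_forall fun s => by simp [exp_pos]) h,
    fun h => withDensity_absolutelyContinuous _ _ h⟩

lemma exJ : ∃ J : X1 ≃ₗᵢ[ℝ] Lp ℝ 1 (volume : Measure ℝ),
    ∀ f, ∀ᵐ s, J f s = exp (2 * s) * f (exp s) := by
  have hm : Measurable fun s : ℝ => (exp (2 * s)).toNNReal := by fun_prop
  let J := (withDensitySMulLI volume hm).comp (Lp.compMeasurePreservingₗᵢ ℝ exp mp (E := ℝ) (p := 1))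
  have hJ : ∀ f, ∀ᵐ s, J f s = exp (2 * s) * f (exp s) := fun f => by
    have h1 := withDensity_absolutelyContinuous' (μ := volume) (f := fun s =>
      ((exp (2 * s)).toNNReal : ENNReal)) (by fun_prop)
      (Eventually.of_forall fun s => by simp [exp_pos]) (Lp.coeFn_compMeasurePreserving f mp)
    filter_upwards [(memL1_smul_of_L1_withDensity hm
      (Lp.compMeasurePreserving exp mp f)).coeFn_toLp, (show ∀ᵐ s, _ from h1)] with s a1 a2
    refine a1.trans ?_
    rw [a2, NNReal.smul_def, coe_toNNReal _ (exp_pos _).le]; rfl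
  refine ⟨.ofSurjective J fun F => ?_, hJ⟩
  have : Integrable (fun x => (x ^ 2)⁻¹ * F (log x)) mu := by
    rw [← mp.integrable_comp_emb emb, nu, integrable_withDensity_iff_integrable_smul hm]
    refine (L1.integrable_coeFn F).congr (Eventually.of_forall fun s => ?_)
    simp only [Function.comp, log_exp, NNReal.smul_def, coe_toNNReal _ (exp_pos _).le, smul_eq_mul]
    rw [two_mul, exp_add]
    field_simp
  refine ⟨this.toL1 _, Lp.ext ?_⟩
  filter_upwards [hJ (this.toL1 _), ae_mu.1 this.coeFn_toL1] with s a1 a2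
  rw [a1, a2, log_exp, two_mul, exp_add]; field_simp

theorem main : ∃ (r a : ℝ → ℝ) (b Φ : ℝ → ℝ → ℝ) (U V : ℝ → X1 →L[ℝ] X1) (B : X1 →L[ℝ] X1),
    IsData r a b ∧ (∀ x, a x ≤ 2) ∧ IsFlow r Φ ∧ C0 U ∧
      (∀ t ≥ 0, ∀ f : X1, Transport r a Φ t f (U t f)) ∧ (∀ f : X1, Frag a b f (B f)) ∧ C0 V ∧
      (∀ t ≥ 0, ∀ f, 0 ≤ f → 0 ≤ V t f) ∧ Perturb U V B ∧ essGrowth V < growth V := by
  obtain ⟨J, hJ⟩ := exJ
  have ms := fun t : ℝ => measurePreserving_sub_right (volume : Measure ℝ) t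
  let S : ℝ → Lp ℝ 1 (volume : Measure ℝ) →ₗᵢ[ℝ] Lp ℝ 1 (volume : Measure ℝ) := fun t =>
    Lp.compMeasurePreservingₗᵢ ℝ _ (ms t)
  have hS : ∀ t F, ∀ᵐ s, S t F s = F (s - t) := fun t F => Lp.coeFn_compMeasurePreserving F (ms t)
  let τ : ℝ → X1 →L[ℝ] X1 := fun t =>
    (J.symm.toLinearIsometry.comp ((S t).comp J.toLinearIsometry)).toContinuousLinearMap
  have hτ : ∀ t f, J (τ t f) = S t (J f) := fun t f => J.apply_symm_apply _
  have hτ' : ∀ t f, ∀ᵐ y ∂mu, τ t f y = exp (-2 * t) * f (y * exp (-t)) := fun t f => by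
    refine ae_mu.2 ?_
    filter_upwards [hJ (τ t f), hS t (J f), (ms t).quasiMeasurePreserving.ae (hJ f)] with s a1 a2 a3
    rw [hτ, a2, a3, show 2 * (s - t) = 2 * s + -2 * t by ring, exp_add, mul_assoc, sub_eq_add_neg,
      exp_add] at a1
    exact (mul_left_cancel₀ (exp_pos _).ne' a1).symm
  have iG : Integrable ((Iic (0 : ℝ)).indicator exp) :=
    (integrable_indicator_iff measurableSet_Iic).2 (integrableOn_exp_Iic 0)
  let φ : X1 →L[ℝ] ℝ := (2 : ℝ) • (L1.integralCLM' ℝ).comp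
    ((LpToLpRestrictCLM ℝ ℝ ℝ volume 1 (Ioi 0)).comp J.toLinearIsometry.toContinuousLinearMap)
  have hφ : ∀ f, φ f = 2 * ∫ s in Ioi 0, J f s := fun f => by
    rw [← integral_congr_ae (LpToLpRestrictCLM_coeFn ℝ (Ioi 0) (J f)), ← L1.integral_eq_integral,
      L1.integral_eq' ℝ]; rfl
  set g := J.symm (iG.toL1 _) with hg
  have Jg : ∀ᵐ s, J g s = (Iic (0 : ℝ)).indicator exp s := by
    rw [hg, J.apply_symm_apply]; exact iG.coeFn_toL1
  have pos : ∀ f : X1, 0 ≤ f ↔ ∀ᵐ s, 0 ≤ J f s := fun f => by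
    rw [← Lp.coeFn_nonneg, EventuallyLE, ae_mu]
    refine eventually_congr ((hJ f).mono fun s hs => ?_)
    rw [hs, mul_nonneg_iff_of_pos_left (exp_pos _)]; rfl
  obtain ⟨k1, V, k2, k3, k4, k5⟩ := pert2 (τ := τ) (C := Ici 0)
    (fun f => J.injective (by rw [hτ]; exact Lp.ext ((hS 0 _).mono fun s hs => by simpa using hs)))
    (fun s t f => J.injective (by
      rw [hτ, hτ, hτ]
      refine Lp.ext ?_
      filter_upwards [hS (s + t) (J f), hS s (S t (J f)),
        (ms s).quasiMeasurePreserving.ae (hS t (J f))] with x a1 a2 a3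
      rw [a1, a2, a3, sub_sub]))
    (fun f => J.symm.continuous.comp (continuous_const.compMeasurePreservingLp
      (g := fun t : ℝ => (⟨fun s => s - t, by fun_prop⟩ : C(ℝ, ℝ)))
      (ContinuousMap.continuous_of_continuous_uncurry _ (by
        show Continuous fun p : ℝ × ℝ => p.2 - p.1
        fun_prop)) ms ENNReal.one_ne_top))
    (fun t => LinearIsometry.norm_toContinuousLinearMap_le _) φ g (fun r hr => by
      rw [hφ, hτ, integral_congr_ae (g := fun s => (Iic r).indicator (fun s => exp (s - r)) s)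
        (ae_restrict_of_ae (by
          filter_upwards [hS r (J g), (ms r).quasiMeasurePreserving.ae Jg] with s a1 a2
          rw [a1, a2]; simp [indicator])), integral_indicator measurableSet_Iic,
        Measure.restrict_restrict measurableSet_Iic, inter_comm, Ioi_inter_Iic,
        ← intervalIntegral.integral_of_le hr, intervalIntegral.integral_comp_sub_right exp,
        integral_exp]
      simp; ring) isClosed_Ici (fun x hx y hy => mem_Ici.2 (add_nonneg hx hy))
    (fun c hc x hx => (pos _).2 (by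
      rw [map_smul]
      filter_upwards [(pos x).1 hx, Lp.coeFn_smul c (J x)] with s a1 a2
      rw [a2]; exact mul_nonneg hc a1))
    (fun t x hx => (pos _).2 (by
      rw [hτ]
      filter_upwards [hS t (J x), (ms t).quasiMeasurePreserving.ae ((pos x).1 hx)] with s a1 a2
      rwa [a1]))
    (fun x hx => by
      rw [hφ]; exact mul_nonneg zero_le_two (integral_nonneg_of_ae (ae_restrict_of_ae ((pos x).1 hx))))
    ((pos g).2 (Jg.mono fun s hs => by
      rw [hs]; exact indicator_nonneg (fun _ _ => (exp_pos _).le) _))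
  have top : ∀ {A : Set ℝ}, MeasurableSet A → A ⊆ Ioi 0 → ¬IntegrableOn (·⁻¹) A →
      ∫⁻ x in A, ENNReal.ofReal (1 / x) = ⊤ := fun hA h1 h2 => by
    by_contra h
    simp only [one_div] at h
    exact h2 ((lintegral_ofReal_ne_top_iff_integrable measurable_inv.aestronglyMeasurable
      ((ae_restrict_mem hA).mono fun x hx => inv_nonneg.2 (le_of_lt (h1 hx)))).1 h)
  have lg : ∀ y > 0, ∀ t : ℝ, ∫ p in y * exp (-t)..y, p⁻¹ = t := fun y hy t => by
    rw [integral_inv_of_pos (by positivity) hy, exp_neg, ← div_eq_mul_inv, div_div_cancel₀ hy.ne',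
      log_exp]
  refine ⟨fun x => x, fun _ => 2, fun x y => if x ≤ 1 ∧ 1 < y then y / x else 0,
    fun y t => y * exp (-t), _, V, _, ⟨fun x hx => hx, (ContinuousOn.div continuousOn_const
      continuousOn_id fun x hx => ne_of_gt hx).locallyIntegrableOn measurableSet_Ioi,
      top measurableSet_Ioo (fun x hx => hx.1) fun h => ?_,
      top measurableSet_Ioi (Ioi_subset_Ioi zero_le_one) not_integrableOn_Ioi_inv,
      measurable_const, fun _ _ => zero_le_two, ?_, fun x y hx hy => ?_, fun y hy => ?_⟩,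
    fun _ => le_rfl, fun y hy t ht => ⟨⟨by positivity, mul_le_of_le_one_right hy.le
      (exp_le_one_iff.2 (neg_nonpos.2 ht))⟩, by simpa using lg y hy t⟩, k1, fun t _ f => ?_,
    fun f => ?_, k2, k3, k4, k5⟩
  · simpa using intervalIntegrable_inv_iff.1
      ((intervalIntegrable_iff_integrableOn_Ioo_of_le zero_le_one).2 h)
  · exact Measurable.ite ((measurableSet_le measurable_fst measurable_const).inter
      (measurableSet_lt measurable_const measurable_snd)) (measurable_snd.div measurable_fst)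
      measurable_const
  · have := hx.trans hy
    beta_reduce
    split_ifs <;> positivity
  · calc _ ≤ ∫⁻ x in Ioo 0 y, (Ioc 0 1).indicator (fun _ => ENNReal.ofReal y) x :=
          setLIntegral_mono' measurableSet_Ioo fun x hx => by
            beta_reduce
            split_ifs with h
            · rw [indicator_of_mem (show x ∈ Ioc 0 1 from ⟨hx.1, h.1⟩), mul_div_cancel₀ _ hx.1.ne']
            · simp
      _ ≤ ∫⁻ x, (Ioc (0 : ℝ) 1).indicator (fun _ => ENNReal.ofReal y) x :=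
          setLIntegral_le_lintegral _ _
      _ = _ := by simp
  · filter_upwards [hτ' t f, Lp.coeFn_smul (exp (-t)) (τ t f),
      (ae_mu (P := fun y => 0 < y)).2 (Eventually.of_forall exp_pos)] with y a1 a2 a3
    rw [_root_.smul_apply, a2, Pi.smul_apply, a1, deriv_mul_const_field, deriv_id'']
    simp only [div_eq_mul_inv, intervalIntegral.integral_const_mul, lg y a3, smul_eq_mul, neg_mul]
    ring
  · have e1 : exp '' Ioi 0 = Ioi 1 := by simp
    have e2 : ∀ᵐ s, |exp s| • (exp s * f (exp s)) = J f s := (hJ f).mono fun s hs => by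
      rw [hs, abs_of_pos (exp_pos s), two_mul, exp_add, smul_eq_mul, mul_assoc]
    have i1 : IntegrableOn (fun y => y * f y) (Ioi 1) := by
      rw [← e1, integrableOn_image_iff_integrableOn_abs_deriv_smul measurableSet_Ioi
        (fun x _ => (hasDerivAt_exp x).hasDerivWithinAt) exp_injective.injOn]
      exact ((L1.integrable_coeFn (J f)).congr (EventuallyEq.symm e2)).integrableOn
    have i2 : φ f = 2 * ∫ y in Ioi 1, y * f y := by
      rw [hφ, ← e1, integral_image_eq_integral_abs_deriv_smul measurableSet_Ioi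
        (fun x _ => (hasDerivAt_exp x).hasDerivWithinAt) exp_injective.injOn,
        integral_congr_ae (ae_restrict_of_ae e2)]
    refine ae_mu.2 ?_
    filter_upwards [ae_mu.1 (Lp.coeFn_smul (φ f) g), hJ g, Jg] with s a1 a2 a3
    rw [ContinuousLinearMap.smulRight_apply, a1, Pi.smul_apply, smul_eq_mul]
    rw [a3, two_mul, exp_add] at a2
    have p := exp_pos s
    by_cases hs : s ≤ 0
    · have h1 : exp s ≤ 1 := exp_le_one_iff.2 hs
      have e3 : (fun y => 2 * (if exp s ≤ 1 ∧ 1 < y then y / exp s else 0) * f y) =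
          (Ioi 1).indicator fun y => 2 / exp s * (y * f y) := funext fun y => by
        by_cases hy : 1 < y <;> simp [h1, hy]
        ring
      rw [indicator_of_mem (show s ∈ Iic 0 from hs)] at a2
      rw [e3, integral_indicator measurableSet_Ioi, Measure.restrict_restrict measurableSet_Ioi,
        inter_eq_left.2 (Ioi_subset_Ioi h1), integral_const_mul, i2,
        show g (exp s) = (exp s)⁻¹ by field_simp; nlinarith]
      exact ⟨((integrable_indicator_iff measurableSet_Ioi).2 (i1.const_mul _)).integrableOn,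
        by ring⟩
    · have h1 : ¬exp s ≤ 1 := by rwa [exp_le_one_iff]
      rw [indicator_of_notMem (show s ∉ Iic 0 from hs), eq_comm, mul_eq_zero] at a2
      simp [h1, a2.resolve_left (by positivity)]

end Pool.Agent.H.MP_bbd370_an
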